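import Pool.Agent.H27.GF.Emb

/-!
Module ALT (MP_cd65c5_nt, helper7): primitive and not full in degree 3 or 4: even permutations
-/

set_option autoImplicit false

namespace Pool.Agent.H27.GF

open Polynomial NumberField Module Pool.Agent.H7.GF MulAction

/-- a permutation of order three of at most four points is a three-cycle -/
lemma threeCycle {α : Type} [Fintype α] [DecidableEq α] (hα : Fintype.card α ≤ 4)
    (g : Equiv.Perm α) (hg : orderOf g = 3) : g.IsThreeCycle := by
  obtain ⟨n, hn⟩ := Equiv.Perm.cycleType_prime_order (by rw [hg]; exact Nat.prime_three)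
  have h1 := Equiv.Perm.sum_cycleType g
  have h2 : g.support.card ≤ 4 := (Finset.card_le_univ _).trans hα
  rw [hn, hg] at h1
  simp only [Multiset.sum_replicate, smul_eq_mul] at h1
  have h3 : n = 0 := by omega
  rw [h3, hg] at hn
  exact hn

/-- ALT -/
theorem alt : T_ALT := by
  classical
  intro F L _ _ _ _ _ θ hθ hn hF hL hNF σ
  have hcard : Nat.card (F →ₐ[ℚ] L) = finrank ℚ F := card_emb θ hθ hL
  have hfc : Fintype.card (F →ₐ[ℚ] L) ≤ 4 := by
    rw [← Nat.card_eq_fintype_card, hcard]; omega
  -- the image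
  obtain ⟨R, hR⟩ : ∃ R, R = (rho F L).range := ⟨_, rfl⟩
  haveI := isPreprim (L := L) θ hθ hL hF (by omega)
  have hRp : IsPreprimitive R (F →ₐ[ℚ] L) := by
    rw [hR]
    let f : (F →ₐ[ℚ] L) →ₑ[(rho F L).rangeRestrict] (F →ₐ[ℚ] L) :=
      { toFun := id, map_smul' := fun m x => rfl }
    exact IsPreprimitive.of_surjective (f := f) Function.surjective_id
  have h3 := three_dvd θ hθ hL hF hn
  haveI : Fact (Nat.Prime 3) := ⟨Nat.prime_three⟩
  obtain ⟨g, hg⟩ := exists_prime_orderOf_dvd_card' 3 h3
  have hg' : orderOf (rho F L g) = 3 := by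
    rw [orderOf_injective (rho F L) (faithful θ hθ hL), hg]
  have h3c := threeCycle hfc _ hg'
  have hgR : rho F L g ∈ R := by rw [hR]; exact ⟨g, rfl⟩
  have hA := Equiv.Perm.alternatingGroup_le_of_isPreprimitive_of_isThreeCycle_mem hRp h3c hgR
  -- suppose that the sign is not one
  by_contra hs
  have hs' : Equiv.Perm.sign (rho F L σ) = -1 := by
    rcases Int.units_eq_one_or (Equiv.Perm.sign (rho F L σ)) with h | h
    · exact absurd h hs
    · exact h
  have htop : R = ⊤ := by
    rw [eq_top_iff]
    intro π _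
    rcases Int.units_eq_one_or (Equiv.Perm.sign π) with h | h
    · exact hA (Equiv.Perm.mem_alternatingGroup.mpr h)
    · have h4 : π * (rho F L σ)⁻¹ ∈ R := by
        apply hA
        rw [Equiv.Perm.mem_alternatingGroup, map_mul, map_inv, h, hs']
        simp
      have h5 : rho F L σ ∈ R := by rw [hR]; exact ⟨σ, rfl⟩
      have h6 := R.mul_mem h4 h5
      rwa [inv_mul_cancel_right] at h6
  apply hNF
  have h4 : Nat.card R = (finrank ℚ F).factorial := by
    rw [htop, Subgroup.card_top, Nat.card_perm, hcard]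
  have h5 : Nat.card R = Nat.card (L ≃ₐ[ℚ] L) := by
    rw [hR]
    exact (Nat.card_congr (MonoidHom.ofInjective (faithful θ hθ hL)).toEquiv).symm
  rw [← card_gal (L := L) _ hL, ← h5, h4, hθ]

end Pool.Agent.H27.GF
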