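import Pool.Agent.H7.GF.Targets1

/-!
The Galois group of the splitting field of a polynomial acting on the embeddings of the field
generated by a root (MP_cd65c5_nt, helper7).
-/

set_option autoImplicit false

namespace Pool.Agent.H27.GF

open Polynomial NumberField Module Pool.Agent.H7.GF MulAction

variable {F L : Type} [Field F] [NumberField F] [Field L] [NumberField L]

/-- the minimal polynomial over the rationals -/
lemma minpoly_toQ (θ : 𝓞 F) : minpoly ℚ (θ : F) = toQ (minpoly ℤ θ) := by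
  have h1 : minpoly ℤ (θ : F) = minpoly ℤ θ :=
    minpoly.algebraMap_eq RingOfIntegers.coe_injective θ
  rw [minpoly.isIntegrallyClosed_eq_field_fractions' ℚ θ.isIntegral_coe, h1]
  rfl

lemma adjoin_top (θ : 𝓞 F) (hθ : finrank ℚ F = (minpoly ℤ θ).natDegree) :
    Algebra.adjoin ℚ {(θ : F)} = ⊤ := by
  have h2 : (minpoly ℚ (θ : F)).natDegree = finrank ℚ F := by
    rw [minpoly_toQ, hθ]
    exact natDegree_map_eq_of_injective (Int.cast_injective) _
  have h3 : IntermediateField.adjoin ℚ {(θ : F)} = ⊤ :=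
    (Field.primitive_element_iff_minpoly_natDegree_eq ℚ (θ : F)).mpr h2
  have h4 := IntermediateField.adjoin_simple_toSubalgebra_of_isAlgebraic
    (Algebra.IsAlgebraic.isAlgebraic (R := ℚ) (θ : F))
  rw [← h4, h3]
  rfl

/-- the power basis of `θ` -/
noncomputable def pb (θ : 𝓞 F) (hθ : finrank ℚ F = (minpoly ℤ θ).natDegree) : PowerBasis ℚ F :=
  PowerBasis.ofAdjoinEqTop (Algebra.IsIntegral.isIntegral (θ : F)) (adjoin_top θ hθ)

lemma pb_gen (θ : 𝓞 F) (hθ : finrank ℚ F = (minpoly ℤ θ).natDegree) : (pb θ hθ).gen = (θ : F) := rfl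

lemma pb_dim (θ : 𝓞 F) (hθ : finrank ℚ F = (minpoly ℤ θ).natDegree) :
    (pb θ hθ).dim = finrank ℚ F := ((pb θ hθ).finrank).symm

lemma emb_ext (θ : 𝓞 F) (hθ : finrank ℚ F = (minpoly ℤ θ).natDegree) {φ ψ : F →ₐ[ℚ] L}
    (h : φ (θ : F) = ψ (θ : F)) : φ = ψ :=
  (pb θ hθ).algHom_ext h

lemma emb_exists (θ : 𝓞 F) (hθ : finrank ℚ F = (minpoly ℤ θ).natDegree) (r : L)
    (hr : aeval r (minpoly ℚ (θ : F)) = 0) : ∃ φ : F →ₐ[ℚ] L, φ (θ : F) = r :=
  ⟨(pb θ hθ).lift r hr, (pb θ hθ).lift_gen r hr⟩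

lemma card_emb (θ : 𝓞 F) (hθ : finrank ℚ F = (minpoly ℤ θ).natDegree)
    (hL : Polynomial.IsSplittingField ℚ L (toQ (minpoly ℤ θ))) :
    Nat.card (F →ₐ[ℚ] L) = finrank ℚ F := by
  rw [← pb_dim θ hθ]
  apply AlgHom.natCard_of_powerBasis
  · exact Algebra.IsSeparable.isSeparable ℚ _
  · rw [pb_gen, minpoly_toQ]
    exact hL.splits

section Action

/-- the action of the Galois group on the embeddings -/
noncomputable def rho (F L : Type) [Field F] [NumberField F] [Field L] [NumberField L] :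
    (L ≃ₐ[ℚ] L) →* Equiv.Perm (F →ₐ[ℚ] L) where
  toFun σ := (AlgEquiv.refl : F ≃ₐ[ℚ] F).arrowCongr σ
  map_one' := by
    ext φ x
    rfl
  map_mul' σ τ := by
    ext φ x
    rfl

lemma rho_apply (σ : L ≃ₐ[ℚ] L) (φ : F →ₐ[ℚ] L) (x : F) : rho F L σ φ x = σ (φ x) := rfl

/-- the Galois group acts on the embeddings -/
noncomputable instance actE : MulAction (L ≃ₐ[ℚ] L) (F →ₐ[ℚ] L) := MulAction.compHom _ (rho F L)

lemma smul_eq (σ : L ≃ₐ[ℚ] L) (φ : F →ₐ[ℚ] L) : σ • φ = rho F L σ φ := rfl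

lemma smul_app (σ : L ≃ₐ[ℚ] L) (φ : F →ₐ[ℚ] L) (x : F) : (σ • φ) x = σ (φ x) := rfl

variable [IsGalois ℚ L]

lemma trans (θ : 𝓞 F) (hθ : finrank ℚ F = (minpoly ℤ θ).natDegree) (φ ψ : F →ₐ[ℚ] L) :
    ∃ σ : L ≃ₐ[ℚ] L, σ • φ = ψ := by
  have h1 : (aeval (ψ (θ : F))) (minpoly ℚ (φ (θ : F))) = 0 := by
    rw [minpoly.algHom_eq φ φ.injective, aeval_algHom_apply, minpoly.aeval, map_zero]
  obtain ⟨σ, hσ⟩ := minpoly.exists_algEquiv_of_root'
    (Algebra.IsAlgebraic.isAlgebraic (R := ℚ) (φ (θ : F))) h1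
  exact ⟨σ, emb_ext θ hθ hσ⟩

lemma isPretrans (θ : 𝓞 F) (hθ : finrank ℚ F = (minpoly ℤ θ).natDegree) :
    IsPretransitive (L ≃ₐ[ℚ] L) (F →ₐ[ℚ] L) := ⟨fun φ ψ => trans θ hθ φ ψ⟩

omit [IsGalois ℚ L] in
lemma faithful (θ : 𝓞 F) (hθ : finrank ℚ F = (minpoly ℤ θ).natDegree)
    (hL : Polynomial.IsSplittingField ℚ L (toQ (minpoly ℤ θ))) : Function.Injective (rho F L) := by
  intro σ τ h
  have h1 : Algebra.adjoin ℚ ((toQ (minpoly ℤ θ)).rootSet L) = ⊤ := hL.adjoin_rootSet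
  have h2 : (σ : L →ₐ[ℚ] L) = τ := by
    apply AlgHom.ext_of_adjoin_eq_top h1
    intro r hr
    have hr' : aeval r (minpoly ℚ (θ : F)) = 0 := by
      rw [minpoly_toQ]
      exact aeval_eq_zero_of_mem_rootSet hr
    obtain ⟨φ, hφ⟩ := emb_exists θ hθ r hr'
    have h3 : rho F L σ φ (θ : F) = rho F L τ φ (θ : F) := by rw [h]
    rw [rho_apply, rho_apply, hφ] at h3
    exact h3
  ext x
  exact DFunLike.congr_fun h2 x

lemma stab_eq (φ : F →ₐ[ℚ] L) : stabilizer (L ≃ₐ[ℚ] L) φ =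
    IntermediateField.fixingSubgroup φ.fieldRange := by
  ext σ
  rw [MulAction.mem_stabilizer_iff, IntermediateField.mem_fixingSubgroup_iff]
  constructor
  · rintro h _ ⟨x, rfl⟩
    have := DFunLike.congr_fun h x
    exact this
  · intro h
    ext x
    exact h (φ x) ⟨x, rfl⟩

lemma coatom (θ : 𝓞 F) (hθ : finrank ℚ F = (minpoly ℤ θ).natDegree)
    (hL : Polynomial.IsSplittingField ℚ L (toQ (minpoly ℤ θ))) (hF : NoInt F)
    (hn : 1 < finrank ℚ F) (φ : F →ₐ[ℚ] L) : IsCoatom (stabilizer (L ≃ₐ[ℚ] L) φ) := by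
  haveI := isPretrans (L := L) θ hθ
  constructor
  · intro h
    have h1 : (stabilizer (L ≃ₐ[ℚ] L) φ).index = Nat.card (F →ₐ[ℚ] L) :=
      index_stabilizer_of_transitive _ φ
    rw [h, Subgroup.index_top, card_emb θ hθ hL] at h1
    omega
  · intro K hK
    obtain ⟨M, hM⟩ : ∃ M, M = IntermediateField.fixedField K := ⟨_, rfl⟩
    have hle : M ≤ φ.fieldRange := by
      rw [hM, ← IsGalois.fixedField_fixingSubgroup φ.fieldRange, ← stab_eq]
      exact IntermediateField.fixedField_le hK.le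
    have hKM : IntermediateField.fixingSubgroup M = K := by
      rw [hM]; exact IntermediateField.fixingSubgroup_fixedField K
    rcases hF (M.comap φ) with h | h
    · have : M = ⊥ := by
        rw [eq_bot_iff]
        intro x hx
        obtain ⟨y, rfl⟩ := hle hx
        have hy : y ∈ M.comap φ := hx
        rw [h, IntermediateField.mem_bot] at hy
        obtain ⟨c, rfl⟩ := hy
        rw [IntermediateField.mem_bot]
        exact ⟨c, by simp⟩
      rw [this] at hKM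
      rw [← hKM]
      exact IntermediateField.fixingSubgroup_bot
    · exfalso
      have : M = φ.fieldRange := by
        apply le_antisymm hle
        rintro _ ⟨y, rfl⟩
        have hy : y ∈ M.comap φ := by rw [h]; exact IntermediateField.mem_top
        exact hy
      rw [this, ← stab_eq] at hKM
      exact hK.ne hKM

lemma isPreprim (θ : 𝓞 F) (hθ : finrank ℚ F = (minpoly ℤ θ).natDegree)
    (hL : Polynomial.IsSplittingField ℚ L (toQ (minpoly ℤ θ))) (hF : NoInt F)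
    (hn : 1 < finrank ℚ F) : IsPreprimitive (L ≃ₐ[ℚ] L) (F →ₐ[ℚ] L) := by
  haveI := isPretrans (L := L) θ hθ
  have hc : 1 < Nat.card (F →ₐ[ℚ] L) := by rw [card_emb θ hθ hL]; exact hn
  haveI : Nontrivial (F →ₐ[ℚ] L) := Finite.one_lt_card_iff_nontrivial.mp hc
  obtain ⟨φ⟩ : Nonempty (F →ₐ[ℚ] L) := inferInstance
  rw [← isCoatom_stabilizer_iff_preprimitive (L ≃ₐ[ℚ] L) φ]
  exact coatom θ hθ hL hF hn φ

lemma card_dvd (θ : 𝓞 F) (hθ : finrank ℚ F = (minpoly ℤ θ).natDegree)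
    (hL : Polynomial.IsSplittingField ℚ L (toQ (minpoly ℤ θ))) :
    Nat.card (L ≃ₐ[ℚ] L) ∣ (finrank ℚ F).factorial := by
  have h1 := Subgroup.card_dvd_of_injective (rho F L) (faithful θ hθ hL)
  rwa [Nat.card_perm, card_emb θ hθ hL] at h1

lemma dvd_card (θ : 𝓞 F) (hθ : finrank ℚ F = (minpoly ℤ θ).natDegree)
    (hL : Polynomial.IsSplittingField ℚ L (toQ (minpoly ℤ θ))) (φ : F →ₐ[ℚ] L) :
    Nat.card (stabilizer (L ≃ₐ[ℚ] L) φ) * finrank ℚ F = Nat.card (L ≃ₐ[ℚ] L) := by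
  haveI := isPretrans (L := L) θ hθ
  have h1 : (stabilizer (L ≃ₐ[ℚ] L) φ).index = Nat.card (F →ₐ[ℚ] L) :=
    index_stabilizer_of_transitive _ φ
  rw [card_emb θ hθ hL] at h1
  rw [← h1, Subgroup.card_mul_index]

lemma three_dvd (θ : 𝓞 F) (hθ : finrank ℚ F = (minpoly ℤ θ).natDegree)
    (hL : Polynomial.IsSplittingField ℚ L (toQ (minpoly ℤ θ))) (hF : NoInt F)
    (hn : finrank ℚ F = 3 ∨ finrank ℚ F = 4) : 3 ∣ Nat.card (L ≃ₐ[ℚ] L) := by
  have hc : 1 < Nat.card (F →ₐ[ℚ] L) := by rw [card_emb θ hθ hL]; omega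
  haveI : Nontrivial (F →ₐ[ℚ] L) := Finite.one_lt_card_iff_nontrivial.mp hc
  obtain ⟨φ⟩ : Nonempty (F →ₐ[ℚ] L) := inferInstance
  have h1 := dvd_card θ hθ hL φ
  rcases hn with hn | hn
  · rw [← h1, hn]; exact Dvd.intro_left _ rfl
  · by_contra h3
    have h2 := card_dvd θ hθ hL
    rw [hn] at h1 h2
    have h4 : Nat.factorial 4 = 8 * 3 := by decide
    rw [h4] at h2
    have h5 : Nat.card (L ≃ₐ[ℚ] L) ∣ 8 := by
      apply Nat.Coprime.dvd_of_dvd_mul_right _ h2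
      exact (Nat.Prime.coprime_iff_not_dvd Nat.prime_three).mpr h3 |>.symm
    obtain ⟨s, hs⟩ : ∃ s, s = Nat.card (stabilizer (L ≃ₐ[ℚ] L) φ) := ⟨_, rfl⟩
    rw [← hs] at h1
    rw [← h1] at h5
    have h6 : s ∣ 2 := by
      have : s * 4 ∣ 2 * 4 := h5
      exact Nat.dvd_of_mul_dvd_mul_right (by norm_num) this
    obtain ⟨k, hk, hk'⟩ := (Nat.dvd_prime_pow Nat.prime_two (m := 1)).mp (by simpa using h6)
    haveI : Fact (Nat.Prime 2) := ⟨Nat.prime_two⟩
    have h7 : 2 ^ (k + 1) ∣ Nat.card (L ≃ₐ[ℚ] L) := by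
      rw [← h1, hk', pow_succ]
      exact ⟨2, by ring⟩
    obtain ⟨K, hK1, hK2⟩ := Sylow.exists_subgroup_card_pow_succ h7 (hs.symm.trans hk')
    have h8 := (coatom θ hθ hL hF (by omega) φ).2 K (lt_of_le_of_ne hK2 (by
      intro h
      rw [h] at hs
      rw [hK1] at hs
      rw [hk'] at hs
      have : 2 ^ k < 2 ^ (k + 1) := Nat.pow_lt_pow_right (by norm_num) (by omega)
      omega))
    rw [h8, Subgroup.card_top, ← h1, hk', pow_succ] at hK1
    have : 0 < 2 ^ k := by positivity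
    omega

omit [IsGalois ℚ L] in
lemma card_gal (f : ℤ[X]) (hL : Polynomial.IsSplittingField ℚ L (toQ f)) :
    Nat.card (L ≃ₐ[ℚ] L) = Nat.card (toQ f).Gal := by
  haveI := hL
  exact Nat.card_congr (AlgEquiv.autCongr (Polynomial.IsSplittingField.algEquiv L (toQ f))).toEquiv

end Action

end Pool.Agent.H27.GF
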