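import Pool.Agent.H27.GF.Emb

/-!
Module QDEP (MP_cd65c5_nt, helper7): depressed primitive quartics have a nonzero linear coefficient
-/

set_option autoImplicit false

namespace Pool.Agent.H27.GF

open Polynomial NumberField Module Pool.Agent.H7.GF

/-- QDEP -/
theorem qdep : T_QDEP := by
  rintro g hg hg4 hirr ⟨K, _, _, θ, hθ, hdeg, hK⟩ hQ
  have hfr : finrank ℚ K = 4 := by rw [← hdeg, hg4]
  have hθ' : finrank ℚ K = (minpoly ℤ θ).natDegree := by rw [hθ, hdeg]
  obtain ⟨α, hα⟩ : ∃ α : K, α = (θ : K) := ⟨_, rfl⟩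
  have hmin : minpoly ℚ α = toQ g := by rw [hα, minpoly_toQ, hθ]
  have hmindeg : (minpoly ℚ α).natDegree = 4 := by
    rw [hmin, ← hg4]
    exact natDegree_map_eq_of_injective (Int.cast_injective) _
  have hroot : α ^ 4 + (g.coeff 3 : K) * α ^ 3 + (g.coeff 2 : K) * α ^ 2 + (g.coeff 1 : K) * α +
      (g.coeff 0 : K) = 0 := by
    have h1 : aeval α (toQ g) = 0 := by rw [← hmin]; exact minpoly.aeval ℚ α
    have h2 : (toQ g).natDegree = 4 := by rw [← hmin]; exact hmindeg
    rw [aeval_eq_sum_range, h2] at h1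
    have h3 : g.coeff 4 = 1 := by rw [← hg4]; exact hg
    simp only [Finset.sum_range_succ, Finset.range_zero, Finset.sum_empty, zero_add, toQ, coeff_map,
      Algebra.smul_def, eq_intCast, map_intCast, h3, Int.cast_one, pow_zero, pow_one, mul_one,
      one_mul] at h1
    linear_combination h1
  obtain ⟨β, hβ⟩ : ∃ β : K, β = 4 * α + (g.coeff 3 : K) := ⟨_, rfl⟩
  obtain ⟨P, hP⟩ : ∃ P : ℤ, P = 16 * g.coeff 2 - 6 * g.coeff 3 ^ 2 := ⟨_, rfl⟩
  obtain ⟨R, hR⟩ : ∃ R : ℤ, R = 256 * g.coeff 0 - 64 * g.coeff 3 * g.coeff 1 +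
    16 * g.coeff 3 ^ 2 * g.coeff 2 - 3 * g.coeff 3 ^ 4 := ⟨_, rfl⟩
  have hQ' : (64 * (g.coeff 1 : K) - 32 * g.coeff 3 * g.coeff 2 + 8 * (g.coeff 3 : K) ^ 3) = 0 := by
    have := congrArg (fun z : ℤ => (z : K)) hQ
    simp only [Qdep] at this
    push_cast at this
    exact this
  obtain ⟨γ, hγ⟩ : ∃ γ : K, γ = β ^ 2 := ⟨_, rfl⟩
  have hγ2 : γ ^ 2 + (P : K) * γ + (R : K) = 0 := by
    rw [hγ, hβ, hP, hR]
    push_cast
    linear_combination 256 * hroot - (4 * α + (g.coeff 3 : K)) * hQ'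
  rcases hK (IntermediateField.adjoin ℚ {γ}) with h | h
  · have hmem : γ ∈ IntermediateField.adjoin ℚ {γ} := IntermediateField.mem_adjoin_simple_self ℚ γ
    rw [h, IntermediateField.mem_bot] at hmem
    obtain ⟨q, hq⟩ := hmem
    obtain ⟨p, hp⟩ : ∃ p : ℚ[X], p = C 16 * X ^ 2 + C (8 * (g.coeff 3 : ℚ)) * X +
      C ((g.coeff 3 : ℚ) ^ 2 - q) := ⟨_, rfl⟩
    have hpd : p.natDegree = 2 := by rw [hp]; exact natDegree_quadratic (by norm_num)
    have hp0 : p ≠ 0 := by
      intro h0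
      rw [h0, natDegree_zero] at hpd
      exact absurd hpd (by norm_num)
    have hpa : aeval α p = 0 := by
      rw [hp]
      simp only [map_add, map_mul, aeval_C, aeval_X, map_pow, map_sub]
      rw [hq, hγ, hβ]
      simp only [map_ofNat, map_intCast]
      ring
    have h1 := natDegree_le_of_dvd (minpoly.dvd ℚ α hpa) hp0
    rw [hmindeg, hpd] at h1
    exact absurd h1 (by norm_num)
  · have h1 : finrank ℚ (IntermediateField.adjoin ℚ {γ}) = (minpoly ℚ γ).natDegree :=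
      IntermediateField.adjoin.finrank (Algebra.IsIntegral.isIntegral γ)
    rw [h, IntermediateField.finrank_top', hfr] at h1
    obtain ⟨p, hp⟩ : ∃ p : ℚ[X], p = C 1 * X ^ 2 + C (P : ℚ) * X + C (R : ℚ) := ⟨_, rfl⟩
    have hpd : p.natDegree = 2 := by rw [hp]; exact natDegree_quadratic (by norm_num)
    have hp0 : p ≠ 0 := by
      intro h0
      rw [h0, natDegree_zero] at hpd
      exact absurd hpd (by norm_num)
    have hpa : aeval γ p = 0 := by
      rw [hp]
      simp only [map_add, map_mul, aeval_C, aeval_X, map_pow, map_one, map_intCast, one_mul]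
      exact hγ2
    have h2 := natDegree_le_of_dvd (minpoly.dvd ℚ γ hpa) hp0
    rw [← h1, hpd] at h2
    exact absurd h2 (by norm_num)

end Pool.Agent.H27.GF
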