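import Pool.Agent.H27.GF.ALT

/-!
Modules SQ3, SQ4, EXP4 (MP_cd65c5_nt, helper7): square discriminants of cubics with group `A₃` and
of quartics with group `A₄`.
-/

set_option autoImplicit false

namespace Pool.Agent.H27.GF

open Polynomial NumberField Module Pool.Agent.H7.GF MulAction

section Det

variable {F L : Type} [Field F] [NumberField F] [Field L] [NumberField L]

open Classical in
/-- determinants of conjugates are rational integers if the group acts by even permutations -/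
lemma int_det [IsGalois ℚ L] {ι : Type} [Fintype ι] [DecidableEq ι] (e : ι ≃ (F →ₐ[ℚ] L))
    (b : ι → F) (hb : ∀ i, IsIntegral ℤ (b i))
    (hs : ∀ σ : L ≃ₐ[ℚ] L, Equiv.Perm.sign (rho F L σ) = 1) :
    ∃ y : ℤ, (Matrix.of fun i j => e j (b i)).det = (y : L) := by
  obtain ⟨M, hM⟩ : ∃ M : Matrix ι ι L, M = Matrix.of fun i j => e j (b i) := ⟨_, rfl⟩
  have hMi : ∀ i j, M i j = e j (b i) := by intro i j; rw [hM]; rfl
  have h1 : ∀ σ : L ≃ₐ[ℚ] L, σ M.det = M.det := by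
    intro σ
    obtain ⟨π, hπ⟩ : ∃ π : Equiv.Perm ι, π = (e.trans (rho F L σ)).trans e.symm := ⟨_, rfl⟩
    have h2 : σ M.det = (M.submatrix id π).det := by
      have h3 := RingHom.map_det (σ : L →+* L) M
      have h4 : (σ : L →+* L) M.det = σ M.det := rfl
      rw [← h4, h3]
      congr 1
      ext i j
      rw [RingHom.mapMatrix_apply, Matrix.map_apply, Matrix.submatrix_apply, id, hMi, hMi, hπ]
      simp only [Equiv.trans_apply, Equiv.apply_symm_apply]
      rw [rho_apply]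
      rfl
    have h5 : Equiv.Perm.sign π = 1 := by
      rw [hπ, Equiv.Perm.sign_trans_trans_symm]
      exact hs σ
    rw [h2, Matrix.det_permute', h5]
    simp
  have h2 : M.det ∈ (⊥ : IntermediateField ℚ L) := (IsGalois.mem_bot_iff_fixed _).mpr h1
  rw [IntermediateField.mem_bot] at h2
  obtain ⟨q, hq⟩ := h2
  have h3 : IsIntegral ℤ M.det := by
    apply IsIntegral.det
    intro i j
    rw [hMi]
    exact (hb i).map ((e j).restrictScalars ℤ)
  rw [← hq] at h3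
  have h4 : IsIntegral ℤ q :=
    (isIntegral_algebraMap_iff (algebraMap ℚ L).injective).mp h3
  obtain ⟨y, hy⟩ := IsIntegrallyClosed.isIntegral_iff.mp h4
  refine ⟨y, ?_⟩
  rw [← hM, ← hq, ← hy]
  simp

/-- the conjugates are the roots -/
lemma prod_emb {n : ℕ} (θ : 𝓞 F) (hθ : finrank ℚ F = (minpoly ℤ θ).natDegree)
    (e : Fin n ≃ (F →ₐ[ℚ] L)) (hn : (minpoly ℤ θ).natDegree = n) :
    (toQ (minpoly ℤ θ)).map (algebraMap ℚ L) = ∏ i : Fin n, (X - C (e i (θ : F))) := by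
  have hinj : Function.Injective (fun i => e i (θ : F)) := by
    intro i j hij
    exact e.injective (emb_ext θ hθ hij)
  have hmon : (minpoly ℤ θ).Monic := minpoly.monic θ.isIntegral
  have h1 : (∏ i : Fin n, (X - C (e i (θ : F)))) ∣ (toQ (minpoly ℤ θ)).map (algebraMap ℚ L) := by
    apply Finset.prod_dvd_of_coprime
    · intro i _ j _ hij
      exact pairwise_coprime_X_sub_C hinj hij
    · intro i _
      rw [dvd_iff_isRoot, IsRoot.def, eval_map, ← aeval_def, ← minpoly_toQ]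
      rw [aeval_algHom_apply, minpoly.aeval, map_zero]
  apply eq_of_monic_of_dvd_of_natDegree_le
  · exact monic_prod_of_monic _ _ fun i _ => monic_X_sub_C _
  · exact (hmon.map _).map _
  · exact h1
  · rw [natDegree_map, natDegree_prod_of_monic _ _ fun i _ => monic_X_sub_C _]
    simp only [natDegree_X_sub_C, Finset.sum_const, Finset.card_univ, Fintype.card_fin,
      smul_eq_mul, mul_one]
    rw [toQ]
    exact (natDegree_map_le).trans hn.le

/-- the product of the differences of the conjugates -/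
lemma int_disc [IsGalois ℚ L] {n : ℕ} (θ : 𝓞 F) (e : Fin n ≃ (F →ₐ[ℚ] L))
    (hs : ∀ σ : L ≃ₐ[ℚ] L, open Classical in Equiv.Perm.sign (rho F L σ) = 1) :
    ∃ y : ℤ, ∏ i : Fin n, ∏ j ∈ Finset.Ioi i, (e j (θ : F) - e i (θ : F)) = (y : L) := by
  obtain ⟨y, hy⟩ := int_det e (fun i => (θ : F) ^ (i : ℕ)) (fun i => (θ.isIntegral_coe).pow _) hs
  refine ⟨y, ?_⟩
  rw [← hy, ← Matrix.det_vandermonde, ← Matrix.det_transpose]
  congr 1
  ext i j
  simp [Matrix.vandermonde_apply]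

end Det

/-- a splitting field -/
lemma exists_split0 (k : Type) [Field k] (f : k[X]) :
    ∃ (L : Type) (_ : Field L) (_ : Algebra k L), Polynomial.IsSplittingField k L f :=
  ⟨f.SplittingField, inferInstance, inferInstance, inferInstance⟩

/-- the splitting field with the canonical algebra structure -/
lemma exists_split (f : ℚ[X]) :
    ∃ (L : Type) (_ : Field L) (_ : NumberField L), Polynomial.IsSplittingField ℚ L f := by
  obtain ⟨L, _, inst, h⟩ := exists_split0 ℚ f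
  haveI h0 : CharZero L := charZero_of_injective_algebraMap (@algebraMap ℚ L _ _ inst).injective
  have h1 : inst = DivisionRing.toRatAlgebra := Subsingleton.elim _ _
  subst h1
  haveI := h
  exact ⟨L, inferInstance, { to_charZero := h0
                             to_finiteDimensional := IsSplittingField.finiteDimensional L f }, h⟩

/-- the splitting field, a numbering of the embeddings, and the square root of the discriminant -/
lemma setup {n : ℕ} (hn : n = 3 ∨ n = 4) (f : ℤ[X]) (hf : f.natDegree = n) (hP : PrimF f)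
    (hN : NonFull f) :
    ∃ (K L : Type) (_ : Field K) (_ : NumberField K) (_ : Field L) (_ : NumberField L)
      (_ : IsGalois ℚ L) (θ : 𝓞 K) (e : Fin n ≃ (K →ₐ[ℚ] L)), minpoly ℤ θ = f ∧
      finrank ℚ K = n ∧ ∀ σ : L ≃ₐ[ℚ] L, open Classical in Equiv.Perm.sign (rho K L σ) = 1 := by
  obtain ⟨K, _, _, θ, hθ, hd, hK⟩ := hP
  obtain ⟨L, _, _, hL'⟩ := exists_split (toQ f)
  have hfr : finrank ℚ K = n := by rw [← hd, hf]
  have hθ' : finrank ℚ K = (minpoly ℤ θ).natDegree := by rw [hθ, hd]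
  have hsep : (toQ f).Separable := by
    rw [← hθ, ← minpoly_toQ]
    exact Algebra.IsSeparable.isSeparable ℚ _
  haveI : IsGalois ℚ L := IsGalois.of_separable_splitting_field hsep
  have hL : Polynomial.IsSplittingField ℚ L (toQ (minpoly ℤ θ)) := by
    rw [hθ]
    exact hL'
  have hc := card_emb (L := L) θ hθ' hL
  rw [hfr, Nat.card_eq_fintype_card] at hc
  refine ⟨K, L, inferInstance, inferInstance, inferInstance, inferInstance, inferInstance, θ,
    (Fintype.equivFinOfCardEq hc).symm, hθ, hfr, ?_⟩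
  exact alt K L θ hθ' (by rw [hfr]; exact hn) hK hL (by rw [hθ]; exact hN)

lemma coeff3 {L : Type} [Field L] (p : L[X]) (a b c : L)
    (h : p = X ^ 3 + C a * X ^ 2 + C b * X + C c) :
    p.coeff 0 = c ∧ p.coeff 1 = b ∧ p.coeff 2 = a := by
  rw [h]
  simp [coeff_X, coeff_C, coeff_X_pow]

lemma coeff4 {L : Type} [Field L] (p : L[X]) (a b c d : L)
    (h : p = X ^ 4 + C a * X ^ 3 + C b * X ^ 2 + C c * X + C d) :
    p.coeff 0 = d ∧ p.coeff 1 = c ∧ p.coeff 2 = b ∧ p.coeff 3 = a := by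
  rw [h]
  simp [coeff_X, coeff_C, coeff_X_pow]

/-- SQ3 -/
theorem sq3 (hD : T_DICH) (hP : T_PDEG) : T_SQ3 := by
  intro f hf h3 hirr hN
  have hPr : PrimF f := by
    rcases hD f hf hirr with h | h
    · exact h
    · exact absurd h (hP f (by rw [h3]; exact Nat.prime_three))
  obtain ⟨K, L, _, _, _, _, _, θ, e, hθ, hfr, hs⟩ := setup (Or.inl rfl) f h3 hPr hN
  obtain ⟨y, hy⟩ := int_disc θ e hs
  have hp := prod_emb θ (by rw [hθ, hfr, h3]) e (by rw [hθ, h3])
  rw [hθ] at hp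
  obtain ⟨x, hx⟩ : ∃ x : Fin 3 → L, x = fun i => e i (θ : K) := ⟨_, rfl⟩
  have hxi : ∀ i, e i (θ : K) = x i := by intro i; rw [hx]
  simp only [hxi] at hy hp
  rw [Fin.prod_univ_three] at hp
  have hq : (X - C (x 0)) * (X - C (x 1)) * (X - C (x 2)) =
      X ^ 3 + C (-(x 0 + x 1 + x 2)) * X ^ 2 + C (x 0 * x 1 + x 0 * x 2 + x 1 * x 2) * X +
        C (-(x 0 * x 1 * x 2)) := by
    simp only [map_add, map_mul, map_neg]
    ring
  rw [hq] at hp
  have hc : ∀ k, ((f.coeff k : ℤ) : L) = ((toQ f).map (algebraMap ℚ L)).coeff k := by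
    intro k
    simp [toQ]
  obtain ⟨k0, k1, k2⟩ := coeff3 _ _ _ _ hp
  have h0 := (hc 0).trans k0
  have h1 := (hc 1).trans k1
  have h2 := (hc 2).trans k2
  refine ⟨y, ?_⟩
  have key : (4 * ((f.coeff 2 : L) ^ 2 - 3 * f.coeff 1) * ((f.coeff 1 : L) ^ 2 -
      3 * f.coeff 2 * f.coeff 0) - ((f.coeff 2 : L) * f.coeff 1 - 9 * f.coeff 0) ^ 2) =
      3 * (y : L) ^ 2 := by
    rw [← hy, h0, h1, h2]
    have : ∏ i : Fin 3, ∏ j ∈ Finset.Ioi i, (x j - x i) =
        (x 1 - x 0) * (x 2 - x 0) * (x 2 - x 1) := by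
      rw [Fin.prod_univ_three]
      have e0 : Finset.Ioi (0 : Fin 3) = {1, 2} := by decide
      have e1 : Finset.Ioi (1 : Fin 3) = {2} := by decide
      have e2 : Finset.Ioi (2 : Fin 3) = ∅ := by decide
      rw [e0, e1, e2]
      simp
    rw [this]
    ring
  exact_mod_cast key

/-- SQ4 -/
theorem sq4 : T_SQ4 := by
  intro f hf h4 hPr hN
  obtain ⟨K, L, _, _, _, _, _, θ, e, hθ, hfr, hs⟩ := setup (Or.inr rfl) f h4 hPr hN
  obtain ⟨y, hy⟩ := int_disc θ e hs
  have hp := prod_emb θ (by rw [hθ, hfr, h4]) e (by rw [hθ, h4])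
  rw [hθ] at hp
  obtain ⟨x, hx⟩ : ∃ x : Fin 4 → L, x = fun i => e i (θ : K) := ⟨_, rfl⟩
  have hxi : ∀ i, e i (θ : K) = x i := by intro i; rw [hx]
  simp only [hxi] at hy hp
  rw [Fin.prod_univ_four] at hp
  have hq : (X - C (x 0)) * (X - C (x 1)) * (X - C (x 2)) * (X - C (x 3)) =
      X ^ 4 + C (-(x 0 + x 1 + x 2 + x 3)) * X ^ 3 +
        C (x 0 * x 1 + x 0 * x 2 + x 0 * x 3 + x 1 * x 2 + x 1 * x 3 + x 2 * x 3) * X ^ 2 +
        C (-(x 0 * x 1 * x 2 + x 0 * x 1 * x 3 + x 0 * x 2 * x 3 + x 1 * x 2 * x 3)) * X +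
        C (x 0 * x 1 * x 2 * x 3) := by
    simp only [map_add, map_mul, map_neg]
    ring
  rw [hq] at hp
  have hc : ∀ k, ((f.coeff k : ℤ) : L) = ((toQ f).map (algebraMap ℚ L)).coeff k := by
    intro k
    simp [toQ]
  obtain ⟨k0, k1, k2, k3⟩ := coeff4 _ _ _ _ _ hp
  have h0 := (hc 0).trans k0
  have h1 := (hc 1).trans k1
  have h2 := (hc 2).trans k2
  have h3 := (hc 3).trans k3
  refine ⟨y, ?_⟩
  have hI : ((I4 f : ℤ) : L) = ((x 0 - x 1) * (x 2 - x 3)) ^ 2 +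
      ((x 0 - x 1) * (x 2 - x 3)) * ((x 0 - x 2) * (x 3 - x 1)) +
      ((x 0 - x 2) * (x 3 - x 1)) ^ 2 := by
    unfold I4
    push_cast
    rw [h0, h1, h2, h3]
    ring
  have hJ : ((J4 f : ℤ) : L) = ((x 0 - x 1) * (x 2 - x 3) - (x 0 - x 2) * (x 3 - x 1)) *
      ((x 0 - x 1) * (x 2 - x 3) + 2 * ((x 0 - x 2) * (x 3 - x 1))) *
      (2 * ((x 0 - x 1) * (x 2 - x 3)) + (x 0 - x 2) * (x 3 - x 1)) ∨
      ((J4 f : ℤ) : L) = -(((x 0 - x 1) * (x 2 - x 3) - (x 0 - x 2) * (x 3 - x 1)) *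
      ((x 0 - x 1) * (x 2 - x 3) + 2 * ((x 0 - x 2) * (x 3 - x 1))) *
      (2 * ((x 0 - x 1) * (x 2 - x 3)) + (x 0 - x 2) * (x 3 - x 1))) := by
    unfold J4
    push_cast
    rw [h0, h1, h2, h3]
    first
      | (left; ring1)
      | (right; ring1)
  have key : 4 * ((I4 f : ℤ) : L) ^ 3 - ((J4 f : ℤ) : L) ^ 2 = 27 * (y : L) ^ 2 := by
    have : ∏ i : Fin 4, ∏ j ∈ Finset.Ioi i, (x j - x i) =
        (x 1 - x 0) * (x 2 - x 0) * (x 3 - x 0) * ((x 2 - x 1) * (x 3 - x 1)) * (x 3 - x 2) := by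
      rw [Fin.prod_univ_four]
      have e0 : Finset.Ioi (0 : Fin 4) = {1, 2, 3} := by decide
      have e1 : Finset.Ioi (1 : Fin 4) = {2, 3} := by decide
      have e2 : Finset.Ioi (2 : Fin 4) = {3} := by decide
      have e3 : Finset.Ioi (3 : Fin 4) = ∅ := by decide
      rw [e0, e1, e2, e3]
      simp [Finset.prod_insert, mul_assoc]
    rw [← hy, this, hI]
    have hJ2 : ((J4 f : ℤ) : L) ^ 2 = (((x 0 - x 1) * (x 2 - x 3) - (x 0 - x 2) * (x 3 - x 1)) *
      ((x 0 - x 1) * (x 2 - x 3) + 2 * ((x 0 - x 2) * (x 3 - x 1))) *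
      (2 * ((x 0 - x 1) * (x 2 - x 3)) + (x 0 - x 2) * (x 3 - x 1))) ^ 2 := by
      rcases hJ with h | h
      · rw [h]
      · rw [h, neg_sq]
    rw [hJ2]
    obtain ⟨A, hA⟩ : ∃ A, A = (x 0 - x 1) * (x 2 - x 3) := ⟨_, rfl⟩
    obtain ⟨B, hB⟩ : ∃ B, B = (x 0 - x 2) * (x 3 - x 1) := ⟨_, rfl⟩
    have hAB : A + B = -((x 0 - x 3) * (x 1 - x 2)) := by rw [hA, hB]; ring
    have hΔ : (x 1 - x 0) * (x 2 - x 0) * (x 3 - x 0) * ((x 2 - x 1) * (x 3 - x 1)) * (x 3 - x 2) =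
        A * B * (A + B) := by
      rw [hAB, hA, hB]
      ring
    rw [hΔ, ← hA, ← hB]
    ring
  exact_mod_cast key

/-- the discriminant of a field with even Galois action is a square -/
lemma discr_sq {K L : Type} [Field K] [NumberField K] [Field L] [NumberField L] [IsGalois ℚ L]
    {n : ℕ} (e : Fin n ≃ (K →ₐ[ℚ] L)) (hfr : finrank ℚ K = n)
    (hs : ∀ σ : L ≃ₐ[ℚ] L, open Classical in Equiv.Perm.sign (rho K L σ) = 1) :
    ∃ y : ℤ, discr K = y ^ 2 := by
  classical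
  obtain ⟨Ω, hΩ⟩ : ∃ Ω, Ω = AlgebraicClosure L := ⟨_, rfl⟩
  let i : L →ₐ[ℚ] AlgebraicClosure L := (IsScalarTower.toAlgHom ℚ L (AlgebraicClosure L))
  let c : (K →ₐ[ℚ] L) → (K →ₐ[ℚ] AlgebraicClosure L) := fun φ => i.comp φ
  have hci : Function.Injective c := by
    intro φ ψ h
    ext x
    apply i.injective
    exact DFunLike.congr_fun h x
  have hcard : Fintype.card (K →ₐ[ℚ] L) = Fintype.card (K →ₐ[ℚ] AlgebraicClosure L) := by
    rw [AlgHom.card ℚ K (AlgebraicClosure L), hfr, ← Fintype.card_fin n]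
    exact (Fintype.card_congr e).symm
  have hcb : Function.Bijective c := (Fintype.bijective_iff_injective_and_card c).mpr ⟨hci, hcard⟩
  obtain ⟨b, hb⟩ : ∃ b : Basis (Module.Free.ChooseBasisIndex ℤ (𝓞 K)) ℚ K, b = integralBasis K :=
    ⟨_, rfl⟩
  have hι : Fintype.card (Module.Free.ChooseBasisIndex ℤ (𝓞 K)) = n := by
    rw [← hfr, Module.finrank_eq_card_basis b]
  let g : Module.Free.ChooseBasisIndex ℤ (𝓞 K) ≃ Fin n := Fintype.equivFinOfCardEq hι
  let e' : Module.Free.ChooseBasisIndex ℤ (𝓞 K) ≃ (K →ₐ[ℚ] L) := g.trans e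
  let e'' : Module.Free.ChooseBasisIndex ℤ (𝓞 K) ≃ (K →ₐ[ℚ] AlgebraicClosure L) :=
    e'.trans (Equiv.ofBijective c hcb)
  obtain ⟨y, hy⟩ := int_det e' b (fun j => by
    rw [hb, integralBasis_apply]
    exact RingOfIntegers.isIntegral_coe _) hs
  refine ⟨y, ?_⟩
  have h1 := Algebra.discr_eq_det_embeddingsMatrixReindex_pow_two ℚ (AlgebraicClosure L) b e''
  have h2 : (Algebra.embeddingsMatrixReindex ℚ (AlgebraicClosure L) b e'') =
      (algebraMap L (AlgebraicClosure L)).mapMatrix (Matrix.of fun i j => e' j (b i)) := by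
    ext u v
    rfl
  rw [h2, ← RingHom.map_det, hy, hb, ← coe_discr] at h1
  have h3 : ((discr K : ℤ) : AlgebraicClosure L) = ((y ^ 2 : ℤ) : AlgebraicClosure L) := by
    rw [map_intCast, map_intCast] at h1
    rw [h1]
    push_cast
    rfl
  exact_mod_cast h3

/-- EXP4 -/
theorem exp4 : T_EXP4 := by
  rintro c f g D ⟨hD0, -, ⟨K, _, _, α, hα, hKd, hKD⟩, hgm, hg4, hirr, hNF, hPr, -, -, -, hp⟩ p hpp
    hp7 hpD
  obtain ⟨h2, h3, -, -⟩ := hp p hpp hp7 hpD
  obtain ⟨K', L, _, _, _, _, _, θ, e, hθ, hfr, hs⟩ := setup (Or.inr rfl) g hg4 hPr hNF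
  obtain ⟨y, hy⟩ := discr_sq e hfr hs
  have hα' : finrank ℚ K = (minpoly ℤ α).natDegree := by rw [hα, hKd]
  have hθ' : finrank ℚ K' = (minpoly ℤ θ).natDegree := by rw [hθ, hfr, hg4]
  have hKK : discr K = discr K' := by
    apply discr_eq_discr_of_algEquiv
    apply (pb α hα').equivOfMinpoly (pb θ hθ')
    rw [pb_gen, pb_gen, minpoly_toQ, minpoly_toQ, hα, hθ]
  have hDy : D = y.natAbs ^ 2 := by
    rw [← hKD, hKK, hy, Int.natAbs_pow]
  rw [hDy, Nat.factorization_pow] at h2 h3 ⊢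
  simp only [Finsupp.smul_apply, smul_eq_mul] at h2 h3 ⊢
  omega

end Pool.Agent.H27.GF
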